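import Mathlib
import Pool.Agent.R180.CVCore

set_option autoImplicit false

/-!
# MP_ca7516_co, Q1: a torus type all of whose realizations have a convex vertex of valence four

The type: a square pyramid two opposite corners of the base of which are cut off; the two triangles
arising are removed and joined by a tube of six quadrilaterals through the interior.
-/

namespace Pool.Agent.Results.MP_ca7516_co.ForcedConvexVertex

open Matrix Pool.Agent.R180.CV

/-- `F`, a list of faces (each given as the cyclic list of its vertices), is a polyhedral map on a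
closed connected oriented surface with vertices `0, …, n - 1`. -/
structure IsPolyhedralMap {n : ℕ} (F : List (List (Fin n))) : Prop where
  /-- the faces are distinct -/
  nodup : F.Nodup
  /-- every face has at least three vertices, which are distinct -/
  face : ∀ f ∈ F, 3 ≤ f.length ∧ f.Nodup
  /-- every side of a face belongs to no other face with the same direction and to exactly one
  face with the opposite direction -/
  edge : ∀ f ∈ F, ∀ e ∈ cycPairs f, (∀ g ∈ F, e ∈ cycPairs g → g = f) ∧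
    ∃ g ∈ F, e.swap ∈ cycPairs g ∧ ∀ g' ∈ F, e.swap ∈ cycPairs g' → g' = g
  /-- the faces around every vertex form a single cycle -/
  link : ∀ v, ∃ L : List (Fin n), 3 ≤ L.length ∧ L.Nodup ∧
    ∀ s t, (s, t) ∈ cycPairs L ↔ ∃ f ∈ F, (s, v) ∈ cycPairs f ∧ (v, t) ∈ cycPairs f
  /-- two faces are disjoint, or share exactly one vertex, or share exactly one edge -/
  inter : ∀ f ∈ F, ∀ g ∈ F, f ≠ g → (∀ x ∈ f, x ∉ g) ∨ (∃ a ∈ f, ∀ x ∈ f, x ∈ g ↔ x = a) ∨
    ∃ e ∈ cycPairs f, e.swap ∈ cycPairs g ∧ ∀ x ∈ f, x ∈ g ↔ x = e.1 ∨ x = e.2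
  /-- the surface is connected -/
  conn : ∀ a b, Relation.ReflTransGen (Adj F) a b

instance {n : ℕ} (F : List (List (Fin n))) : DecidableRel (Adj F) := fun a b => by
  unfold Adj; infer_instance

/-- The valence of a vertex: the number of vertices joined to it by an edge. -/
def valence {n : ℕ} (F : List (List (Fin n))) (v : Fin n) : ℕ :=
  (Finset.univ.filter (fun w => Adj F v w)).card

/-- The Euler characteristic: vertices minus edges plus faces. -/
def eulerChar {n : ℕ} (F : List (List (Fin n))) : ℤ :=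
  n - (Finset.univ.filter (fun e : Fin n × Fin n => e.1 < e.2 ∧ Adj F e.1 e.2)).card + F.length

/-- The torus type: `0` is the apex, `4, 7, 6, 2, 5, 8` the base. -/
def torus : List (List (Fin 12)) :=
  [[0, 1, 5, 2], [0, 2, 6, 3], [0, 3, 7, 4], [0, 4, 8, 1], [4, 7, 6, 2, 5, 8],
    [8, 5, 11, 9], [5, 1, 10, 11], [1, 8, 9, 10],
    [6, 7, 9, 11], [7, 3, 10, 9], [3, 6, 11, 10]]

/-! ### The combinatorial type -/

/-- the neighbours of a vertex in cyclic order -/
def lk : Fin 12 → List (Fin 12) :=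
  ![[2, 1, 4, 3], [8, 0, 5, 10], [5, 0, 6], [6, 0, 7, 10], [7, 0, 8], [1, 2, 8, 11],
    [7, 2, 3, 11], [3, 4, 6, 9], [5, 4, 1, 9], [11, 8, 10, 7], [1, 11, 3, 9], [5, 9, 6, 10]]

lemma torus_link : ∀ v, 3 ≤ (lk v).length ∧ (lk v).Nodup ∧
    ∀ s t, (s, t) ∈ cycPairs (lk v) ↔
      ∃ f ∈ torus, (s, v) ∈ cycPairs f ∧ (v, t) ∈ cycPairs f := by
  decide +kernel

lemma torus_edge : ∀ f ∈ torus, ∀ e ∈ cycPairs f, (∀ g ∈ torus, e ∈ cycPairs g → g = f) ∧
    ∃ g ∈ torus, e.swap ∈ cycPairs g ∧ ∀ g' ∈ torus, e.swap ∈ cycPairs g' → g' = g := by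
  decide +kernel

set_option synthInstance.maxSize 2000 in
set_option synthInstance.maxHeartbeats 400000 in
lemma torus_inter : ∀ f ∈ torus, ∀ g ∈ torus, f ≠ g → (∀ x ∈ f, x ∉ g) ∨
    (∃ a ∈ f, ∀ x ∈ f, x ∈ g ↔ x = a) ∨
    ∃ e ∈ cycPairs f, e.swap ∈ cycPairs g ∧ ∀ x ∈ f, x ∈ g ↔ x = e.1 ∨ x = e.2 := by
  decide +kernel

lemma torus_conn3 : ∀ a b : Fin 12, ∃ c d e : Fin 12, (a = c ∨ Adj torus a c) ∧
    (c = d ∨ Adj torus c d) ∧ (d = e ∨ Adj torus d e) ∧ (e = b ∨ Adj torus e b) := by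
  decide +kernel

lemma torus_map : IsPolyhedralMap torus where
  nodup := by decide +kernel
  face := by decide +kernel
  edge := torus_edge
  link := fun v => ⟨lk v, torus_link v⟩
  inter := torus_inter
  conn := by
    intro a b
    obtain ⟨c, d, e, h1, h2, h3, h4⟩ := torus_conn3 a b
    have key : ∀ x y : Fin 12, (x = y ∨ Adj torus x y) → Relation.ReflTransGen (Adj torus) x y := by
      rintro x y (rfl | h)
      · exact Relation.ReflTransGen.refl
      · exact Relation.ReflTransGen.single h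
    exact (((key _ _ h1).trans (key _ _ h2)).trans (key _ _ h3)).trans (key _ _ h4)

lemma torus_euler : eulerChar torus = 0 := by decide +kernel

/-! ### A realization -/

/-- coordinates -/
def P : Fin 12 → Fin 3 → ℤ :=
  ![![0, 0, 4], ![3, 0, 1], ![0, 4, 0], ![-3, 0, 1], ![0, -4, 0], ![3, 1, 0], ![-3, 1, 0],
    ![-3, -1, 0], ![3, -1, 0], ![0, -1, 1], ![0, 0, 2], ![0, 1, 1]]

/-- integral dot product -/
def dz (k a : Fin 3 → ℤ) : ℤ := k 0 * a 0 + k 1 * a 1 + k 2 * a 2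

/-- integral cross product -/
def cz (a b : Fin 3 → ℤ) : Fin 3 → ℤ :=
  ![a 1 * b 2 - a 2 * b 1, a 2 * b 0 - a 0 * b 2, a 0 * b 1 - a 1 * b 0]

/-- the realizing points -/
def pt (v : Fin 12) : E3 := fun i => (P v i : ℝ)

/-- a real functional from an integral one -/
def rf (k : Fin 3 → ℤ) : E3 := fun i => (k i : ℝ)

lemma rf_dot (k : Fin 3 → ℤ) (v : Fin 12) : rf k ⬝ᵥ pt v = (dz k (P v) : ℝ) := by
  rw [dot_eq]
  simp [rf, pt, dz]

/-- the normal vector of a face -/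
def nz (f : List (Fin 12)) : Fin 3 → ℤ :=
  match f with
  | a :: b :: c :: _ => cz (fun i => P b i - P a i) (fun i => P c i - P b i)
  | _ => 0

set_option synthInstance.maxSize 2000 in
set_option synthInstance.maxHeartbeats 400000 in
lemma poly_check : ∀ f ∈ torus, nz f ≠ 0 ∧ (∀ a ∈ f, ∀ b ∈ f, dz (nz f) (P a) = dz (nz f) (P b)) ∧
    ∀ e ∈ cycPairs f, dz (cz (fun i => P e.2 i - P e.1 i) (nz f)) (P e.1) =
      dz (cz (fun i => P e.2 i - P e.1 i) (nz f)) (P e.2) ∧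
      ∀ c ∈ f, c ≠ e.1 → c ≠ e.2 → dz (cz (fun i => P e.2 i - P e.1 i) (nz f)) (P c) <
        dz (cz (fun i => P e.2 i - P e.1 i) (nz f)) (P e.1) := by
  decide +kernel

lemma pt_inj : Function.Injective pt := by
  intro a b h
  have key : ∀ a b : Fin 12, (P a 0 = P b 0 ∧ P a 1 = P b 1 ∧ P a 2 = P b 2) → a = b := by
    decide +kernel
  apply key
  have h0 := congrFun h 0
  have h1 := congrFun h 1
  have h2 := congrFun h 2
  simp only [pt, Int.cast_inj] at h0 h1 h2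
  exact ⟨h0, h1, h2⟩

lemma pt_polygon : ∀ f ∈ torus, IsConvexPolygon (f.map pt) := by
  intro f hf
  obtain ⟨h1, h2, h3⟩ := poly_check f hf
  obtain ⟨g1, g2⟩ := torus_map.face f hf
  refine ⟨by rw [List.length_map]; exact g1, g2.map pt_inj, ⟨rf (nz f), ?_, ?_⟩, ?_⟩
  · intro h0
    apply h1
    funext i
    have := congrFun h0 i
    simpa [rf] using this
  · intro a ha b hb
    obtain ⟨x, hx, rfl⟩ := List.mem_map.1 ha
    obtain ⟨y, hy, rfl⟩ := List.mem_map.1 hb
    rw [rf_dot, rf_dot, h2 x hx y hy]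
  · intro e he
    rw [cycPairs_map] at he
    obtain ⟨e', he', rfl⟩ := List.mem_map.1 he
    obtain ⟨k1, k2⟩ := h3 e' he'
    refine ⟨rf (cz (fun i => P e'.2 i - P e'.1 i) (nz f)), ?_, ?_⟩
    · show _ ⬝ᵥ pt e'.1 = _ ⬝ᵥ pt e'.2
      rw [rf_dot, rf_dot, k1]
    · intro c hc c1 c2
      obtain ⟨x, hx, rfl⟩ := List.mem_map.1 hc
      show _ ⬝ᵥ pt x < _ ⬝ᵥ pt e'.1
      rw [rf_dot, rf_dot]
      exact_mod_cast k2 x hx (fun h => c1 (by rw [h]; rfl)) (fun h => c2 (by rw [h]; rfl))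

/-- separating planes -/
def seps : List ((Fin 3 → ℤ) × ℤ) :=
  [(![0, 0, -1], 0), (![1, 1, 1], 4), (![-1, 1, 1], 4), (![-1, -1, 1], 4), (![1, -1, 1], 4),
   (![1, -3, 3], 6), (![-1, 3, 3], 6), (![-1, -3, 3], 6), (![1, 3, 3], 6), (![1, 0, -1], -1),
   (![-1, 0, -1], -1), (![-1, 1, -1], -2), (![1, -1, -1], -2), (![-1, -1, -1], -2),
   (![1, 1, -1], -3), (![1, 0, -3], -3), (![-1, 0, -3], -3), (![1, 0, 3], 3), (![-1, 0, 3], 3),
   (![-1, 2, -2], -5), (![-1, -2, -2], -5), (![1, 2, -2], -5), (![1, -2, -2], -5),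
   (![-1, -3, -2], -5), (![1, 3, -2], -5), (![1, -2, -3], -5), (![1, -3, -2], -5),
   (![-1, -2, -3], -5), (![-1, 3, -2], -5), (![-1, 2, -3], -5), (![1, 2, -3], -5),
   (![-2, -1, 6], 7), (![-2, 1, 6], 7), (![2, 1, 6], 7), (![2, -1, 6], 7)]

lemma sep_check : ∀ f ∈ torus, ∀ g ∈ torus, f ≠ g → ∃ s ∈ seps,
    (∀ a ∈ f, dz s.1 (P a) ≤ s.2 ∧ (a ∉ g → dz s.1 (P a) < s.2)) ∧
    ∀ b ∈ g, s.2 ≤ dz s.1 (P b) := by
  decide +kernel

/-- a point of the hull which maximizes a functional is in the hull of the maximizers -/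
lemma hull_max {V : Type} (p : V → E3) (f : List V) (k : E3) (c : ℝ)
    (hk : ∀ x ∈ f, k ⬝ᵥ p x ≤ c) (z : E3) (hz : z ∈ cell p f) (hzc : k ⬝ᵥ z = c) :
    z ∈ convexHull ℝ (p '' {x | x ∈ f ∧ k ⬝ᵥ p x = c}) := by
  have hface : convexHull ℝ (p '' {x | x ∈ f ∧ k ⬝ᵥ p x = c}) ⊆ {z | k ⬝ᵥ z = c} := by
    apply convexHull_min
    · rintro _ ⟨x, ⟨_, hx⟩, rfl⟩
      exact hx
    · intro x hx y hy a b ha hb hab
      have hx' : k ⬝ᵥ x = c := hx
      have hy' : k ⬝ᵥ y = c := hy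
      show k ⬝ᵥ (a • x + b • y) = c
      rw [dotProduct_add, dotProduct_smul, dotProduct_smul, hx', hy', smul_eq_mul, smul_eq_mul,
        ← add_mul, hab, one_mul]
  have key : cell p f ⊆ {z | k ⬝ᵥ z < c ∨
      z ∈ convexHull ℝ (p '' {x | x ∈ f ∧ k ⬝ᵥ p x = c})} := by
    apply convexHull_min
    · rintro _ ⟨x, hx, rfl⟩
      rcases lt_or_eq_of_le (hk x hx) with h | h
      · exact Or.inl h
      · exact Or.inr (subset_convexHull ℝ _ ⟨x, ⟨hx, h⟩, rfl⟩)
    · intro x hx y hy a b ha hb hab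
      have hle : ∀ w, (k ⬝ᵥ w < c ∨ w ∈ convexHull ℝ (p '' {x | x ∈ f ∧ k ⬝ᵥ p x = c})) →
          k ⬝ᵥ w ≤ c := by
        rintro w (h | h)
        · exact h.le
        · exact (hface h).le
      have hx1 := hle x hx
      have hy1 := hle y hy
      have hdot : k ⬝ᵥ (a • x + b • y) = a * (k ⬝ᵥ x) + b * (k ⬝ᵥ y) := by
        rw [dotProduct_add, dotProduct_smul, dotProduct_smul, smul_eq_mul, smul_eq_mul]
      have hc : a * c + b * c = c := by rw [← add_mul, hab, one_mul]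
      rcases hx with hx | hx
      · rcases eq_or_lt_of_le ha with h0 | h0
        · subst h0
          have hb1 : b = 1 := by linarith
          subst hb1
          rw [zero_smul, zero_add, one_smul]
          exact hy
        · left
          rw [hdot]
          nlinarith [mul_lt_mul_of_pos_left hx h0, mul_le_mul_of_nonneg_left hy1 hb]
      · rcases hy with hy | hy
        · rcases eq_or_lt_of_le hb with h0 | h0
          · subst h0
            have ha1 : a = 1 := by linarith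
            subst ha1
            rw [zero_smul, add_zero, one_smul]
            exact Or.inr hx
          · left
            rw [hdot]
            nlinarith [mul_lt_mul_of_pos_left hy h0, mul_le_mul_of_nonneg_left hx1 ha]
        · exact Or.inr (convex_convexHull ℝ _ hx hy ha hb hab)
  rcases key hz with h | h
  · exact absurd hzc h.ne
  · exact h

lemma pt_inter : ∀ f ∈ torus, ∀ g ∈ torus, f ≠ g →
    cell pt f ∩ cell pt g = convexHull ℝ (pt '' {x | x ∈ f ∧ x ∈ g}) := by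
  intro f hf g hg hne
  apply Set.Subset.antisymm
  · rintro z ⟨hz1, hz2⟩
    obtain ⟨⟨k, c⟩, -, h1, h2⟩ := sep_check f hf g hg hne
    have hk : ∀ x ∈ f, rf k ⬝ᵥ pt x ≤ (c : ℝ) := by
      intro x hx
      rw [rf_dot]
      exact_mod_cast (h1 x hx).1
    have hle : rf k ⬝ᵥ z ≤ c := by
      have : cell pt f ⊆ {z | rf k ⬝ᵥ z ≤ (c : ℝ)} := by
        apply convexHull_min
        · rintro _ ⟨x, hx, rfl⟩
          exact hk x hx
        · intro x hx y hy a b ha hb hab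
          have hx' : rf k ⬝ᵥ x ≤ c := hx
          have hy' : rf k ⬝ᵥ y ≤ c := hy
          show rf k ⬝ᵥ (a • x + b • y) ≤ c
          rw [dotProduct_add, dotProduct_smul, dotProduct_smul, smul_eq_mul, smul_eq_mul]
          have hc : a * (c : ℝ) + b * c = c := by rw [← add_mul, hab, one_mul]
          nlinarith [mul_le_mul_of_nonneg_left hx' ha, mul_le_mul_of_nonneg_left hy' hb]
      exact this hz1
    have hge : (c : ℝ) ≤ rf k ⬝ᵥ z := by
      have : cell pt g ⊆ {z | (c : ℝ) ≤ rf k ⬝ᵥ z} := by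
        apply convexHull_min
        · rintro _ ⟨x, hx, rfl⟩
          show (c : ℝ) ≤ rf k ⬝ᵥ pt x
          rw [rf_dot]
          exact_mod_cast h2 x hx
        · intro x hx y hy a b ha hb hab
          have hx' : (c : ℝ) ≤ rf k ⬝ᵥ x := hx
          have hy' : (c : ℝ) ≤ rf k ⬝ᵥ y := hy
          show (c : ℝ) ≤ rf k ⬝ᵥ (a • x + b • y)
          rw [dotProduct_add, dotProduct_smul, dotProduct_smul, smul_eq_mul, smul_eq_mul]
          have hc : a * (c : ℝ) + b * c = c := by rw [← add_mul, hab, one_mul]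
          nlinarith [mul_le_mul_of_nonneg_left hx' ha, mul_le_mul_of_nonneg_left hy' hb]
      exact this hz2
    have hm := hull_max pt f (rf k) c hk z hz1 (le_antisymm hle hge)
    refine convexHull_mono (Set.image_mono ?_) hm
    rintro x ⟨hx, hxc⟩
    refine ⟨hx, ?_⟩
    by_contra hxg
    have := (h1 x hx).2 hxg
    rw [rf_dot] at hxc
    have h3 : dz k (P x) = c := by exact_mod_cast hxc
    exact absurd h3 this.ne
  · apply Set.subset_inter
    · exact convexHull_mono (Set.image_mono fun x hx => hx.1)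
    · exact convexHull_mono (Set.image_mono fun x hx => hx.2)

lemma torus_realization : IsRealization torus pt := ⟨pt_inj, pt_polygon, pt_inter⟩

/-! ### The stars of the vertices -/

instance {f : List (Fin 12)} {s u t : Fin 12} : Decidable (Cor f s u t) :=
  decidable_of_iff ((s, u) ∈ cycPairs f ∧ (u, t) ∈ cycPairs f ∧ s ≠ t ∧ s ≠ u ∧ t ≠ u)
    ⟨fun h => ⟨h.1, h.2.1, h.2.2.1, h.2.2.2.1, h.2.2.2.2⟩,
      fun h => ⟨h.pair1, h.pair2, h.hst, h.hsu, h.htu⟩⟩

lemma star0 : Star4 torus 0 2 1 4 3 [0, 1, 5, 2] [0, 4, 8, 1] [0, 3, 7, 4] [0, 2, 6, 3] := by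
  constructor <;> decide +kernel

lemma star1 : Star4 torus 1 8 0 5 10 [0, 4, 8, 1] [0, 1, 5, 2] [5, 1, 10, 11] [1, 8, 9, 10] := by
  constructor <;> decide +kernel

lemma star5 : Star4 torus 5 1 2 8 11 [0, 1, 5, 2] [4, 7, 6, 2, 5, 8] [8, 5, 11, 9]
    [5, 1, 10, 11] := by
  constructor <;> decide +kernel

lemma star8 : Star4 torus 8 5 4 1 9 [4, 7, 6, 2, 5, 8] [0, 4, 8, 1] [1, 8, 9, 10]
    [8, 5, 11, 9] := by
  constructor <;> decide +kernel

lemma star6 : Star4 torus 6 7 2 3 11 [4, 7, 6, 2, 5, 8] [0, 2, 6, 3] [3, 6, 11, 10]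
    [6, 7, 9, 11] := by
  constructor <;> decide +kernel

lemma star7 : Star4 torus 7 3 4 6 9 [0, 3, 7, 4] [4, 7, 6, 2, 5, 8] [6, 7, 9, 11]
    [7, 3, 10, 9] := by
  constructor <;> decide +kernel

lemma star3 : Star4 torus 3 6 0 7 10 [0, 2, 6, 3] [0, 3, 7, 4] [7, 3, 10, 9]
    [3, 6, 11, 10] := by
  constructor <;> decide +kernel

lemma star2 : Star3 torus 2 5 0 6 [0, 1, 5, 2] [0, 2, 6, 3] [4, 7, 6, 2, 5, 8] := by
  constructor <;> decide +kernel

lemma star4 : Star3 torus 4 7 0 8 [0, 3, 7, 4] [0, 4, 8, 1] [4, 7, 6, 2, 5, 8] := by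
  constructor <;> decide +kernel

lemma star9 : Star4 torus 9 11 8 10 7 [8, 5, 11, 9] [1, 8, 9, 10] [7, 3, 10, 9]
    [6, 7, 9, 11] := by
  constructor <;> decide +kernel

lemma star10 : Star4 torus 10 1 11 3 9 [5, 1, 10, 11] [3, 6, 11, 10] [7, 3, 10, 9]
    [1, 8, 9, 10] := by
  constructor <;> decide +kernel

lemma star11 : Star4 torus 11 5 9 6 10 [8, 5, 11, 9] [6, 7, 9, 11] [3, 6, 11, 10]
    [5, 1, 10, 11] := by
  constructor <;> decide +kernel

/-! ### Case B: the apex lies in the plane of the base -/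

lemma planar_face {p : Fin 12 → E3} (hR : IsRealization torus p) {f : List (Fin 12)}
    (hf : f ∈ torus) {s u t : Fin 12} (h : Cor f s u t) (m : E3) (c : ℝ)
    (hs : m ⬝ᵥ p s = c) (hu : m ⬝ᵥ p u = c) (ht : m ⬝ᵥ p t = c) :
    ∀ x ∈ f, m ⬝ᵥ p x = c := by
  intro x hx
  obtain ⟨A, B, -, -, he, -⟩ := cone _ (hR.polygon f hf) (h.corner hR.inj) (p x)
    (List.mem_map_of_mem hx)
  rw [he, dotProduct_add, dotProduct_add, dotProduct_smul, dotProduct_smul, dotProduct_sub,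
    dotProduct_sub, hs, hu, ht]
  simp

lemma caseB {p : Fin 12 → E3} (hR : IsRealization torus p) (m : E3) (hm : m ≠ 0) (c : ℝ)
    (h0 : m ⬝ᵥ p 0 = c) (hB : ∀ x ∈ ([4, 7, 6, 2, 5, 8] : List (Fin 12)), m ⬝ᵥ p x = c) :
    ∃ v, 4 ≤ valence torus v ∧ IsConvexVertex torus p v := by
  classical
  have h4 : m ⬝ᵥ p 4 = c := hB 4 (by decide)
  have h7 : m ⬝ᵥ p 7 = c := hB 7 (by decide)
  have h6 : m ⬝ᵥ p 6 = c := hB 6 (by decide)
  have h2 : m ⬝ᵥ p 2 = c := hB 2 (by decide)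
  have h5 : m ⬝ᵥ p 5 = c := hB 5 (by decide)
  have h8 : m ⬝ᵥ p 8 = c := hB 8 (by decide)
  have h1 : m ⬝ᵥ p 1 = c :=
    planar_face hR (f := [0, 1, 5, 2]) (s := 5) (u := 2) (t := 0) (by decide) (by decide) m c
      h5 h2 h0 1 (by decide)
  have h3 : m ⬝ᵥ p 3 = c :=
    planar_face hR (f := [0, 2, 6, 3]) (s := 0) (u := 2) (t := 6) (by decide) (by decide) m c
      h0 h2 h6 3 (by decide)
  -- the points of the small triangle
  have hall : (m ⬝ᵥ p 9 = c ∨ m ⬝ᵥ p 10 = c ∨ m ⬝ᵥ p 11 = c) →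
      m ⬝ᵥ p 9 = c ∧ m ⬝ᵥ p 10 = c ∧ m ⬝ᵥ p 11 = c := by
    have k1 : m ⬝ᵥ p 9 = c → m ⬝ᵥ p 11 = c := fun h =>
      planar_face hR (f := [8, 5, 11, 9]) (s := 9) (u := 8) (t := 5) (by decide) (by decide) m c
        h h8 h5 11 (by decide)
    have k2 : m ⬝ᵥ p 11 = c → m ⬝ᵥ p 9 = c := fun h =>
      planar_face hR (f := [8, 5, 11, 9]) (s := 8) (u := 5) (t := 11) (by decide) (by decide) m c
        h8 h5 h 9 (by decide)
    have k3 : m ⬝ᵥ p 11 = c → m ⬝ᵥ p 10 = c := fun h =>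
      planar_face hR (f := [5, 1, 10, 11]) (s := 11) (u := 5) (t := 1) (by decide) (by decide) m c
        h h5 h1 10 (by decide)
    have k4 : m ⬝ᵥ p 10 = c → m ⬝ᵥ p 11 = c := fun h =>
      planar_face hR (f := [5, 1, 10, 11]) (s := 5) (u := 1) (t := 10) (by decide) (by decide) m c
        h5 h1 h 11 (by decide)
    rintro (h | h | h)
    · exact ⟨h, k3 (k1 h), k1 h⟩
    · exact ⟨k2 (k4 h), h, k4 h⟩
    · exact ⟨k2 h, k3 h, h⟩
  -- the planar vertex of largest norm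
  obtain ⟨u, hu, hmax⟩ := Finset.exists_max_image
    (Finset.univ.filter (fun x : Fin 12 => m ⬝ᵥ p x = c)) (fun x => p x ⬝ᵥ p x)
    ⟨0, by simp [h0]⟩
  simp only [Finset.mem_filter, Finset.mem_univ, true_and] at hu hmax
  have hk : ∀ x, x ≠ u → m ⬝ᵥ p x = c → p u ⬝ᵥ (p x - p u) < 0 := by
    intro x hxu hx
    have g1 := hmax x hx
    have g2 : p x - p u ≠ 0 := sub_ne_zero.2 (hR.inj.ne hxu)
    have g3 := dot_self_pos _ g2
    rw [dot_eq] at g1 g3 ⊢
    rw [dot_eq] at g1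
    simp only [Pi.sub_apply] at g3 ⊢
    nlinarith
  have hz : ∀ x, m ⬝ᵥ p x = c → m ⬝ᵥ (p x - p u) = 0 := by
    intro x hx
    rw [dotProduct_sub, hx, hu, sub_self]
  have hnz : ∀ x, m ⬝ᵥ p x ≠ c → m ⬝ᵥ (p x - p u) ≠ 0 := by
    intro x hx h
    rw [dotProduct_sub, hu] at h
    exact hx (by linarith)
  -- a vertex with a neighbour in the tube
  have six : ∀ a b c' d : Fin 12, ∀ f1 f2 f3 f4 : List (Fin 12),
      Star4 torus u a b c' d f1 f2 f3 f4 → 4 ≤ valence torus u → m ⬝ᵥ p a = c → m ⬝ᵥ p b = c →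
      m ⬝ᵥ p c' = c → a ≠ u → b ≠ u → c' ≠ u → d ≠ u →
      ∃ v, 4 ≤ valence torus v ∧ IsConvexVertex torus p v := by
    intro a b c' d f1 f2 f3 f4 S hval ha hb hc na nb nc nd
    by_cases hd : m ⬝ᵥ p d = c
    · exact (S.false hR m (p u) hm (hz a ha) (hz b hb) (hz c' hc) (hz d hd) (hk a na ha)
        (hk b nb hb) (hk c' nc hc) (hk d nd hd)).elim
    · exact ⟨u, hval, caseB_core hR S m (p u) hm (hz a ha) (hz b hb) (hz c' hc) (hnz d hd)
        (hk a na ha) (hk b nb hb) (hk c' nc hc)⟩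
  have h9 : u = 9 → m ⬝ᵥ p 9 = c := fun h => by rw [← h]; exact hu
  have h10 : u = 10 → m ⬝ᵥ p 10 = c := fun h => by rw [← h]; exact hu
  have h11 : u = 11 → m ⬝ᵥ p 11 = c := fun h => by rw [← h]; exact hu
  fin_cases u
  · exact (star0.false hR m (p 0) hm (hz 2 h2) (hz 1 h1) (hz 4 h4) (hz 3 h3)
      (hk 2 (by decide) h2) (hk 1 (by decide) h1) (hk 4 (by decide) h4) (hk 3 (by decide) h3)).elim
  · exact six _ _ _ _ _ _ _ _ star1 (by decide +kernel) h8 h0 h5 (by decide) (by decide)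
      (by decide) (by decide)
  · exact (star2.false hR m (p 2) hm (hz 5 h5) (hz 0 h0) (hz 6 h6)
      (hk 5 (by decide) h5) (hk 0 (by decide) h0) (hk 6 (by decide) h6)).elim
  · exact six _ _ _ _ _ _ _ _ star3 (by decide +kernel) h6 h0 h7 (by decide) (by decide)
      (by decide) (by decide)
  · exact (star4.false hR m (p 4) hm (hz 7 h7) (hz 0 h0) (hz 8 h8)
      (hk 7 (by decide) h7) (hk 0 (by decide) h0) (hk 8 (by decide) h8)).elim
  · exact six _ _ _ _ _ _ _ _ star5 (by decide +kernel) h1 h2 h8 (by decide) (by decide)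
      (by decide) (by decide)
  · exact six _ _ _ _ _ _ _ _ star6 (by decide +kernel) h7 h2 h3 (by decide) (by decide)
      (by decide) (by decide)
  · exact six _ _ _ _ _ _ _ _ star7 (by decide +kernel) h3 h4 h6 (by decide) (by decide)
      (by decide) (by decide)
  · exact six _ _ _ _ _ _ _ _ star8 (by decide +kernel) h5 h4 h1 (by decide) (by decide)
      (by decide) (by decide)
  · obtain ⟨k9, k10, k11⟩ := hall (Or.inl (h9 rfl))
    exact (star9.false hR m (p 9) hm (hz 11 k11) (hz 8 h8) (hz 10 k10) (hz 7 h7)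
      (hk 11 (by decide) k11) (hk 8 (by decide) h8) (hk 10 (by decide) k10)
      (hk 7 (by decide) h7)).elim
  · obtain ⟨k9, k10, k11⟩ := hall (Or.inr (Or.inl (h10 rfl)))
    exact (star10.false hR m (p 10) hm (hz 1 h1) (hz 11 k11) (hz 3 h3) (hz 9 k9)
      (hk 1 (by decide) h1) (hk 11 (by decide) k11) (hk 3 (by decide) h3)
      (hk 9 (by decide) k9)).elim
  · obtain ⟨k9, k10, k11⟩ := hall (Or.inr (Or.inr (h11 rfl)))
    exact (star11.false hR m (p 11) hm (hz 5 h5) (hz 9 k9) (hz 6 h6) (hz 10 k10)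
      (hk 5 (by decide) h5) (hk 9 (by decide) k9) (hk 6 (by decide) h6)
      (hk 10 (by decide) k10)).elim

/-! ### Case A: the apex does not lie in the plane of the base -/

/-- oriented area of a triangle in a plane with normal vector `m` -/
def om (m x y z : E3) : ℝ := det3 m (y - x) (z - x)

lemma om_rot (m x y z : E3) : om m x y z = om m y z x := by
  simp only [om, det3, Pi.sub_apply]
  ring

lemma det_om (m v x y z : E3) (H : ℝ) (hx : m ⬝ᵥ (x - v) = H) (hy : m ⬝ᵥ (y - v) = H)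
    (hz : m ⬝ᵥ (z - v) = H) :
    det3 (x - v) (y - v) (z - v) * (m ⬝ᵥ m) = H * om m x y z := by
  have h := det_of_plane m (x - v) (y - v) (z - v)
  rw [hx, hy, hz] at h
  rw [h]
  simp only [om, det3, Pi.sub_apply]
  ring

/-- all vertices of a convex polygon other than `a, b` are on the same side of the side `ab` -/
lemma edge_side (L : List E3) (hL : IsConvexPolygon L) {a b d : E3} (h : Corner L a b d)
    (m : E3) (hm : m ≠ 0) (hpl : ∀ x ∈ L, ∀ y ∈ L, m ⬝ᵥ x = m ⬝ᵥ y) (c : E3) (hc : c ∈ L)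
    (hca : c ≠ a) (hcb : c ≠ b) : 0 < om m a b c * om m a b d := by
  obtain ⟨k, l, k1, k2, l1, l2, hkl⟩ := corner_functionals L hL h
  have ha := (mem_of_cycPairs h.pair1).1
  have hb := (mem_of_cycPairs h.pair1).2
  have hd := (mem_of_cycPairs h.pair2).2
  have mz : ∀ x ∈ L, m ⬝ᵥ (x - b) = 0 := by
    intro x hx
    rw [dotProduct_sub, hpl x hx b hb, sub_self]
  have kc := (hkl c hc).2.2.1 hcb hca
  have hind := corner_indep L hL h m hm (mz a ha) (mz d hd)
  have hpk := plane_k m k (a - b) (c - b) (d - b) hm (mz a ha) (mz c hc) (mz d hd)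
  rw [k1] at hpk
  have e1 : om m a b c = - det3 m (a - b) (c - b) := by
    simp only [om, det3, Pi.sub_apply]; ring
  have e2 : om m a b d = - det3 m (a - b) (d - b) := by
    simp only [om, det3, Pi.sub_apply]; ring
  have e3 : det3 m (d - b) (a - b) = - det3 m (a - b) (d - b) := by
    simp only [det3, Pi.sub_apply]; ring
  rw [e3] at hpk
  rw [e1, e2]
  set x := det3 m (a - b) (c - b)
  set y := det3 m (a - b) (d - b)
  -- x * k d = y * k c
  have hxy : x * (k ⬝ᵥ (d - b)) = y * (k ⬝ᵥ (c - b)) := by linarith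
  have hyy : 0 < y * y := mul_self_pos.2 hind
  have h3 : (x * y) * (k ⬝ᵥ (d - b)) = (y * y) * (k ⬝ᵥ (c - b)) := by
    calc (x * y) * (k ⬝ᵥ (d - b)) = y * (x * (k ⬝ᵥ (d - b))) := by ring
      _ = (y * y) * (k ⬝ᵥ (c - b)) := by rw [hxy]; ring
  have h4 : (y * y) * (k ⬝ᵥ (c - b)) < 0 := mul_neg_of_pos_of_neg hyy kc
  rw [← h3] at h4
  have h5 : 0 < x * y := by
    by_contra hh
    push Not at hh
    have := mul_nonneg_of_nonpos_of_nonpos hh k2.le
    linarith
  nlinarith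

lemma pos_trans {x y z : ℝ} (h1 : 0 < x * y) (h2 : 0 < y * z) : 0 < x * z := by
  have h : 0 < (x * z) * (y * y) := by
    have := mul_pos h1 h2
    nlinarith
  by_contra hh
  push Not at hh
  nlinarith [mul_self_nonneg y, mul_nonneg_of_nonpos_of_nonpos hh (neg_nonpos.2 (mul_self_nonneg y))]

lemma caseA {p : Fin 12 → E3} (hR : IsRealization torus p) (m : E3) (hm : m ≠ 0)
    (hpl : ∀ x ∈ ([4, 7, 6, 2, 5, 8] : List (Fin 12)).map p,
      ∀ y ∈ ([4, 7, 6, 2, 5, 8] : List (Fin 12)).map p, m ⬝ᵥ x = m ⬝ᵥ y)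
    (h0 : m ⬝ᵥ p 2 - m ⬝ᵥ p 0 ≠ 0) :
    IsConvexVertex torus p 0 := by
  have hB := hR.polygon [4, 7, 6, 2, 5, 8] (by decide)
  have cor : ∀ a b d : Fin 12, Cor [4, 7, 6, 2, 5, 8] a b d →
      ∀ c ∈ ([4, 7, 6, 2, 5, 8] : List (Fin 12)), c ≠ a → c ≠ b →
        0 < om m (p a) (p b) (p c) * om m (p a) (p b) (p d) := by
    intro a b d h c hc hca hcb
    exact edge_side _ hB (h.corner hR.inj) m hm hpl (p c) (List.mem_map_of_mem hc)
      (hR.inj.ne hca) (hR.inj.ne hcb)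
  set T := om m (p 2) (p 5) (p 8) with hT
  -- orientation of the base
  have t256 : 0 < om m (p 2) (p 5) (p 6) * T := cor 2 5 8 (by decide) 6 (by decide) (by decide)
    (by decide)
  have t254 : 0 < om m (p 2) (p 5) (p 4) * T := cor 2 5 8 (by decide) 4 (by decide) (by decide)
    (by decide)
  have t625 : 0 < om m (p 6) (p 2) (p 5) * T := by rw [om_rot]; exact t256
  have t624 : 0 < om m (p 6) (p 2) (p 4) * T :=
    pos_trans (cor 6 2 5 (by decide) 4 (by decide) (by decide) (by decide)) t625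
  have t627 : 0 < om m (p 6) (p 2) (p 7) * T :=
    pos_trans (cor 6 2 5 (by decide) 7 (by decide) (by decide) (by decide)) t625
  have t762 : 0 < om m (p 7) (p 6) (p 2) * T := by rw [om_rot]; exact t627
  have t764 : 0 < om m (p 7) (p 6) (p 4) * T :=
    pos_trans (cor 7 6 2 (by decide) 4 (by decide) (by decide) (by decide)) t762
  have t476 : 0 < om m (p 4) (p 7) (p 6) * T := by rw [om_rot]; exact t764
  have t472 : 0 < om m (p 4) (p 7) (p 2) * T :=
    pos_trans (cor 4 7 6 (by decide) 2 (by decide) (by decide) (by decide)) t476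
  have t478 : 0 < om m (p 4) (p 7) (p 8) * T :=
    pos_trans (cor 4 7 6 (by decide) 8 (by decide) (by decide) (by decide)) t476
  have t847 : 0 < om m (p 8) (p 4) (p 7) * T := by rw [om_rot]; exact t478
  have t842 : 0 < om m (p 8) (p 4) (p 2) * T :=
    pos_trans (cor 8 4 7 (by decide) 2 (by decide) (by decide) (by decide)) t847
  -- the determinants
  set H : ℝ := m ⬝ᵥ p 2 - m ⬝ᵥ p 0 with hH
  have hmH : ∀ c ∈ ([4, 7, 6, 2, 5, 8] : List (Fin 12)), m ⬝ᵥ (p c - p 0) = H := by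
    intro c hc
    rw [dotProduct_sub, hpl (p c) (List.mem_map_of_mem hc) (p 2)
      (List.mem_map_of_mem (by decide))]
  have hmm := dot_self_pos m hm
  have hHH : 0 < H * H := mul_self_pos.2 h0
  have det : ∀ a b c : Fin 12, a ∈ ([4, 7, 6, 2, 5, 8] : List (Fin 12)) →
      b ∈ ([4, 7, 6, 2, 5, 8] : List (Fin 12)) → c ∈ ([4, 7, 6, 2, 5, 8] : List (Fin 12)) →
      0 < om m (p a) (p b) (p c) * T →
      0 < ((H * T) • crs (p a - p 0) (p b - p 0)) ⬝ᵥ (p c - p 0) := by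
    intro a b c ha hb hc hpos
    rw [smul_dotProduct, crs_dot, smul_eq_mul]
    have h1 := det_om m (p 0) (p a) (p b) (p c) H (hmH a ha) (hmH b hb) (hmH c hc)
    have h2 : 0 < (H * T * det3 (p a - p 0) (p b - p 0) (p c - p 0)) * (m ⬝ᵥ m) := by
      calc 0 < (H * H) * (om m (p a) (p b) (p c) * T) := mul_pos hHH hpos
        _ = (H * T) * (H * om m (p a) (p b) (p c)) := by ring
        _ = (H * T) * (det3 (p a - p 0) (p b - p 0) (p c - p 0) * (m ⬝ᵥ m)) := by rw [h1]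
        _ = _ := by ring
    exact (mul_pos_iff_of_pos_right hmm).1 h2
  have zl : ∀ a b : E3, ((H * T) • crs a b) ⬝ᵥ a = 0 := by
    intro a b
    rw [smul_dotProduct, crs_dot, det3_self_left, smul_zero]
  have zr : ∀ a b : E3, ((H * T) • crs a b) ⬝ᵥ b = 0 := by
    intro a b
    rw [smul_dotProduct, crs_dot, det3_self_right, smul_zero]
  -- the faces at the apex
  have face : ∀ f ∈ torus, ∀ s t x : Fin 12, Cor f s 0 t → x ∈ f → x ≠ 0 → x ≠ s → x ≠ t →
      ∃ A B : ℝ, 0 < A ∧ 0 < B ∧ p x - p 0 = A • (p s - p 0) + B • (p t - p 0) := by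
    intro f hf s t x h hx x0 xs xt
    obtain ⟨A, B, -, -, he, hAB⟩ := cone _ (hR.polygon f hf) (h.corner hR.inj) (p x)
      (List.mem_map_of_mem hx)
    obtain ⟨hA, hB⟩ := hAB (hR.inj.ne x0) (hR.inj.ne xs) (hR.inj.ne xt)
    refine ⟨A, B, hA, hB, ?_⟩
    rw [he]; abel
  obtain ⟨A1, B1, hA1, hB1, e5⟩ := face [0, 1, 5, 2] (by decide) 2 1 5 (by decide) (by decide)
    (by decide) (by decide) (by decide)
  obtain ⟨A2, B2, hA2, hB2, e6⟩ := face [0, 2, 6, 3] (by decide) 3 2 6 (by decide) (by decide)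
    (by decide) (by decide) (by decide)
  obtain ⟨A3, B3, hA3, hB3, e7⟩ := face [0, 3, 7, 4] (by decide) 4 3 7 (by decide) (by decide)
    (by decide) (by decide) (by decide)
  obtain ⟨A4, B4, hA4, hB4, e8⟩ := face [0, 4, 8, 1] (by decide) 1 4 8 (by decide) (by decide)
    (by decide) (by decide) (by decide)
  -- the functionals
  set n1 := (H * T) • crs (p 2 - p 0) (p 5 - p 0) with hn1
  set n2 := (H * T) • crs (p 6 - p 0) (p 2 - p 0) with hn2
  set n3 := (H * T) • crs (p 4 - p 0) (p 7 - p 0) with hn3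
  set n4 := (H * T) • crs (p 8 - p 0) (p 4 - p 0) with hn4
  have comb : ∀ (n x s t : E3) (A B : ℝ), x = A • s + B • t →
      n ⬝ᵥ x = A * (n ⬝ᵥ s) + B * (n ⬝ᵥ t) := by
    intro n x s t A B h
    rw [h, dotProduct_add, dotProduct_smul, dotProduct_smul, smul_eq_mul, smul_eq_mul]
  have zero_of : ∀ {A x : ℝ}, 0 < A → A * x = 0 → x = 0 := by
    intro A x hA h
    exact (mul_eq_zero.1 h).resolve_left hA.ne'
  have pos_of : ∀ {A x : ℝ}, 0 < A → 0 < A * x → 0 < x := by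
    intro A x hA h
    exact (mul_pos_iff_of_pos_left hA).1 h
  -- n1
  have n1_2 : n1 ⬝ᵥ (p 2 - p 0) = 0 := zl _ _
  have n1_5 : n1 ⬝ᵥ (p 5 - p 0) = 0 := zr _ _
  have n1_1 : n1 ⬝ᵥ (p 1 - p 0) = 0 := by
    have h := comb n1 _ _ _ _ _ e5
    rw [n1_2, n1_5] at h
    exact zero_of hB1 (by linarith)
  have n1_4 : 0 < n1 ⬝ᵥ (p 4 - p 0) := det 2 5 4 (by decide) (by decide) (by decide) t254
  have n1_6 : 0 < n1 ⬝ᵥ (p 6 - p 0) := det 2 5 6 (by decide) (by decide) (by decide) t256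
  have n1_3 : 0 < n1 ⬝ᵥ (p 3 - p 0) := by
    have h := comb n1 _ _ _ _ _ e6
    rw [n1_2] at h
    exact pos_of hA2 (by linarith)
  -- n2
  have n2_6 : n2 ⬝ᵥ (p 6 - p 0) = 0 := zl _ _
  have n2_2 : n2 ⬝ᵥ (p 2 - p 0) = 0 := zr _ _
  have n2_3 : n2 ⬝ᵥ (p 3 - p 0) = 0 := by
    have h := comb n2 _ _ _ _ _ e6
    rw [n2_2, n2_6] at h
    exact zero_of hA2 (by linarith)
  have n2_4 : 0 < n2 ⬝ᵥ (p 4 - p 0) := det 6 2 4 (by decide) (by decide) (by decide) t624
  have n2_5 : 0 < n2 ⬝ᵥ (p 5 - p 0) := det 6 2 5 (by decide) (by decide) (by decide) t625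
  have n2_1 : 0 < n2 ⬝ᵥ (p 1 - p 0) := by
    have h := comb n2 _ _ _ _ _ e5
    rw [n2_2] at h
    exact pos_of hB1 (by linarith)
  -- n3
  have n3_4 : n3 ⬝ᵥ (p 4 - p 0) = 0 := zl _ _
  have n3_7 : n3 ⬝ᵥ (p 7 - p 0) = 0 := zr _ _
  have n3_3 : n3 ⬝ᵥ (p 3 - p 0) = 0 := by
    have h := comb n3 _ _ _ _ _ e7
    rw [n3_4, n3_7] at h
    exact zero_of hB3 (by linarith)
  have n3_2 : 0 < n3 ⬝ᵥ (p 2 - p 0) := det 4 7 2 (by decide) (by decide) (by decide) t472
  have n3_8 : 0 < n3 ⬝ᵥ (p 8 - p 0) := det 4 7 8 (by decide) (by decide) (by decide) t478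
  have n3_1 : 0 < n3 ⬝ᵥ (p 1 - p 0) := by
    have h := comb n3 _ _ _ _ _ e8
    rw [n3_4] at h
    exact pos_of hA4 (by linarith)
  -- n4
  have n4_8 : n4 ⬝ᵥ (p 8 - p 0) = 0 := zl _ _
  have n4_4 : n4 ⬝ᵥ (p 4 - p 0) = 0 := zr _ _
  have n4_1 : n4 ⬝ᵥ (p 1 - p 0) = 0 := by
    have h := comb n4 _ _ _ _ _ e8
    rw [n4_4, n4_8] at h
    exact zero_of hA4 (by linarith)
  have n4_2 : 0 < n4 ⬝ᵥ (p 2 - p 0) := det 8 4 2 (by decide) (by decide) (by decide) t842
  have n4_7 : 0 < n4 ⬝ᵥ (p 7 - p 0) := det 8 4 7 (by decide) (by decide) (by decide) t847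
  have n4_3 : 0 < n4 ⬝ᵥ (p 3 - p 0) := by
    have h := comb n4 _ _ _ _ _ e7
    rw [n4_4] at h
    exact pos_of hB3 (by linarith)
  exact caseA_core hR star0 n1 n4 n3 n2 n1_2 n1_1 n1_4 n1_3 n4_1 n4_4 n4_3 n4_2
    n3_4 n3_3 n3_2 n3_1 n2_3 n2_2 n2_1 n2_4

/-- **Q1: yes.** There is a combinatorial type of polyhedral manifold, a torus with 12 vertices
and 11 faces, which has realizations and every realization of which has a convex vertex of
valence at least four. -/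
theorem result : ∃ (n : ℕ) (F : List (List (Fin n))), IsPolyhedralMap F ∧ eulerChar F = 0 ∧
    (∃ p : Fin n → E3, IsRealization F p) ∧
    ∀ p : Fin n → E3, IsRealization F p → ∃ v, 4 ≤ valence F v ∧ IsConvexVertex F p v := by
  refine ⟨12, torus, torus_map, torus_euler, ⟨pt, torus_realization⟩, ?_⟩
  intro p hR
  obtain ⟨-, -, ⟨m, hm, hpl⟩, -⟩ := hR.polygon [4, 7, 6, 2, 5, 8] (by decide)
  by_cases h0 : m ⬝ᵥ p 2 - m ⬝ᵥ p 0 = 0
  · refine caseB hR m hm (m ⬝ᵥ p 2) (by linarith) ?_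
    intro x hx
    exact hpl (p x) (List.mem_map_of_mem hx) (p 2) (List.mem_map_of_mem (by decide))
  · exact ⟨0, by decide +kernel, caseA hR m hm hpl h0⟩

end Pool.Agent.Results.MP_ca7516_co.ForcedConvexVertex
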